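import Pool.Agent.R13.Radii.Dense

/-! From Schwartz functions to all of `L²`. -/

open MeasureTheory Complex Real
open scoped RealInnerProductSpace ENNReal NNReal ComplexConjugate SchwartzMap FourierTransform

set_option linter.unusedSectionVars false

namespace R13.Dim

open R13.Radii

variable {V : Type*} [NormedAddCommGroup V] [InnerProductSpace ℝ V] [FiniteDimensional ℝ V]
  [MeasurableSpace V] [BorelSpace V]

lemma measurable_maxBall {g : V → ℂ} (hg : MemLp g 2 (volume : Measure V)) :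
    Measurable (maxBall g) := by
  apply LowerSemicontinuous.measurable
  unfold maxBall
  exact lowerSemicontinuous_biSup fun R _ => (continuous_ballInt_x hg R).enorm.lowerSemicontinuous

lemma sq_int_eq (g : V → ℂ) : eLpNorm g 2 (volume : Measure V) ^ 2 = ∫⁻ ξ, ‖g ξ‖ₑ ^ 2 := by
  rw [eLpNorm_eq_lintegral_rpow_enorm_toReal (by norm_num) (by norm_num)]
  simp only [ENNReal.toReal_ofNat]
  rw [rpow_half_sq]
  simp

lemma ballInt_diff_le {g h : V → ℂ} (hg : MemLp g 2 (volume : Measure V))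
    (hh : MemLp h 2 (volume : Measure V)) (R : ℝ) (x : V) :
    ‖ballInt g R x - ballInt h R x‖ₑ ≤ eLpNorm (g - h) 2 volume
      * volume (Metric.closedBall (0:V) R) ^ (1/2 : ℝ) := by
  set μ := (volume : Measure V).restrict (Metric.closedBall (0:V) R) with hμ
  have hfin : IsFiniteMeasure μ := ⟨by
    rw [hμ, Measure.restrict_apply_univ]; exact measure_closedBall_lt_top⟩
  have hg1 : Integrable g μ := (hg.restrict _).integrable (by norm_num)
  have hh1 : Integrable h μ := (hh.restrict _).integrable (by norm_num)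
  have c1 : Integrable (fun ξ => chr x ξ * g ξ) μ := hg1.bdd_mul (c := 1)
    (continuous_chr_right x).aestronglyMeasurable (Filter.Eventually.of_forall fun ξ => (norm_chr x ξ).le)
  have c2 : Integrable (fun ξ => chr x ξ * h ξ) μ := hh1.bdd_mul (c := 1)
    (continuous_chr_right x).aestronglyMeasurable (Filter.Eventually.of_forall fun ξ => (norm_chr x ξ).le)
  have e1 : ballInt g R x - ballInt h R x = ∫ ξ, chr x ξ * (g ξ - h ξ) ∂μ := by
    unfold ballInt
    rw [← hμ, ← integral_sub c1 c2]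
    congr 1
    funext ξ
    ring
  rw [e1]
  calc ‖∫ ξ, chr x ξ * (g ξ - h ξ) ∂μ‖ₑ ≤ ∫⁻ ξ, ‖chr x ξ * (g ξ - h ξ)‖ₑ ∂μ :=
        enorm_integral_le_lintegral_enorm _
    _ = eLpNorm (g - h) 1 μ := by
        rw [eLpNorm_one_eq_lintegral_enorm]
        congr 1
        funext ξ
        rw [enorm_mul, ← ofReal_norm (chr x ξ), norm_chr, ENNReal.ofReal_one, one_mul]
        rfl
    _ ≤ eLpNorm (g - h) 2 μ * μ Set.univ ^ (1 / (1:ℝ≥0∞).toReal - 1 / (2:ℝ≥0∞).toReal) :=
        eLpNorm_le_eLpNorm_mul_rpow_measure_univ (by norm_num)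
          ((hg.restrict _).aestronglyMeasurable.sub (hh.restrict _).aestronglyMeasurable)
    _ ≤ eLpNorm (g - h) 2 volume * volume (Metric.closedBall (0:V) R) ^ (1/2 : ℝ) := by
        have e2 : (1 / (1:ℝ≥0∞).toReal - 1 / (2:ℝ≥0∞).toReal) = (1/2 : ℝ) := by norm_num
        rw [e2, hμ, Measure.restrict_apply_univ]
        gcongr
        exact Measure.restrict_le_self

/-- **Extension to `L²`.** -/
theorem extend {C : ℝ≥0∞} (hC : C ≠ ∞)
    (h : ∀ g : 𝓢(V, ℂ), ∫⁻ x, maxBall (g : V → ℂ) x ^ 2 ≤ C * ∫⁻ ξ, ‖g ξ‖ₑ ^ 2)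
    {g : V → ℂ} (hg : MemLp g 2 (volume : Measure V)) :
    ∫⁻ x, maxBall g x ^ 2 ≤ C * ∫⁻ ξ, ‖g ξ‖ₑ ^ 2 := by
  have : Fact ((1:ℝ≥0∞) ≤ 2) := ⟨by norm_num⟩
  obtain ⟨u, hu⟩ : ∃ u : ℕ → 𝓢(V, ℂ), Filter.Tendsto
      (fun j => eLpNorm ((u j : V → ℂ) - g) 2 volume) Filter.atTop (nhds 0) := by
    have hd := SchwartzMap.denseRange_toLpCLM (E := V) (F := ℂ) (p := 2) (by norm_num)
      (μ := (volume : Measure V))
    have hmem : ∀ j : ℕ, ∃ v : 𝓢(V, ℂ), dist (SchwartzMap.toLpCLM ℝ ℂ 2 volume v) (hg.toLp g)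
        < 1 / ((j:ℝ) + 1) := by
      intro j
      obtain ⟨v, hv⟩ := hd.exists_dist_lt (hg.toLp g) (ε := 1 / ((j:ℝ) + 1)) (by positivity)
      exact ⟨v, by rw [dist_comm]; exact hv⟩
    choose u hu using hmem
    refine ⟨u, ?_⟩
    have e1 : ∀ j, eLpNorm ((u j : V → ℂ) - g) 2 volume ≤ ENNReal.ofReal (1 / ((j:ℝ) + 1)) := by
      intro j
      have h1 := (hu j).le
      rw [dist_edist] at h1
      have h2 : edist (SchwartzMap.toLpCLM ℝ ℂ 2 volume (u j)) (hg.toLp g)
          = eLpNorm ((u j : V → ℂ) - g) 2 volume := by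
        change edist (((u j).memLp 2 volume).toLp (u j)) (hg.toLp g) = _
        rw [Lp.edist_toLp_toLp]
      rw [h2] at h1
      have hne : eLpNorm ((u j : V → ℂ) - g) 2 volume ≠ ∞ :=
        (((u j).memLp 2 volume).sub hg).eLpNorm_ne_top
      rw [← ENNReal.ofReal_toReal hne]
      exact ENNReal.ofReal_le_ofReal h1
    refine tendsto_of_tendsto_of_tendsto_of_le_of_le tendsto_const_nhds ?_ (fun _ => bot_le) e1
    have h3 : Filter.Tendsto (fun j : ℕ => 1 / ((j:ℝ) + 1)) Filter.atTop (nhds 0) :=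
      tendsto_one_div_add_atTop_nhds_zero_nat
    have := (ENNReal.continuous_ofReal.tendsto 0).comp h3
    rw [ENNReal.ofReal_zero] at this
    exact this
  have hmem : ∀ j, MemLp (u j : V → ℂ) 2 volume := fun j => (u j).memLp 2 volume
  -- pointwise convergence
  have hpt : ∀ (R : ℝ) (x : V), Filter.Tendsto (fun j => ‖ballInt (u j : V → ℂ) R x‖ₑ) Filter.atTop
      (nhds ‖ballInt g R x‖ₑ) := by
    intro R x
    have h1 : Filter.Tendsto (fun j => ballInt (u j : V → ℂ) R x) Filter.atTop (nhds (ballInt g R x)) := by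
      rw [tendsto_iff_edist_tendsto_0]
      have hv : volume (Metric.closedBall (0:V) R) ^ (1/2 : ℝ) ≠ ∞ :=
        ENNReal.rpow_ne_top_of_nonneg (by norm_num) measure_closedBall_lt_top.ne
      have h2 : Filter.Tendsto (fun j => eLpNorm ((u j : V → ℂ) - g) 2 volume
          * volume (Metric.closedBall (0:V) R) ^ (1/2 : ℝ)) Filter.atTop (nhds (0 * _)) :=
        ENNReal.Tendsto.mul_const hu (Or.inr hv)
      rw [zero_mul] at h2
      refine tendsto_of_tendsto_of_tendsto_of_le_of_le tendsto_const_nhds h2 (fun _ => bot_le)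
        fun j => ?_
      rw [edist_eq_enorm_sub]
      exact ballInt_diff_le (hmem j) hg R x
    exact (continuous_enorm.tendsto _).comp h1
  -- lower semicontinuity of the maximal function
  have hlim : ∀ x, maxBall g x ^ 2 ≤ Filter.liminf (fun j => maxBall (u j : V → ℂ) x ^ 2) Filter.atTop := by
    intro x
    have hR : ∀ R ∈ Set.Ioi (0:ℝ), ‖ballInt g R x‖ₑ
        ≤ (Filter.liminf (fun j => maxBall (u j : V → ℂ) x ^ 2) Filter.atTop) ^ (1/2 : ℝ) := by
      intro R hR
      apply sq_le_imp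
      have h1 : Filter.Tendsto (fun j => ‖ballInt (u j : V → ℂ) R x‖ₑ ^ 2) Filter.atTop
          (nhds (‖ballInt g R x‖ₑ ^ 2)) :=
        ((ENNReal.continuous_pow 2).tendsto _).comp (hpt R x)
      rw [← h1.liminf_eq]
      refine Filter.liminf_le_liminf (Filter.Eventually.of_forall fun j => ?_)
      have : ‖ballInt (u j : V → ℂ) R x‖ₑ ≤ maxBall (u j : V → ℂ) x := le_iSup₂_of_le R hR le_rfl
      gcongr
    calc maxBall g x ^ 2
        ≤ ((Filter.liminf (fun j => maxBall (u j : V → ℂ) x ^ 2) Filter.atTop) ^ (1/2 : ℝ)) ^ 2 := by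
          gcongr
          exact iSup₂_le hR
      _ = _ := rpow_half_sq _
  calc ∫⁻ x, maxBall g x ^ 2
      ≤ ∫⁻ x, Filter.liminf (fun j => maxBall (u j : V → ℂ) x ^ 2) Filter.atTop := lintegral_mono hlim
    _ ≤ Filter.liminf (fun j => ∫⁻ x, maxBall (u j : V → ℂ) x ^ 2) Filter.atTop :=
        lintegral_liminf_le fun j => (measurable_maxBall (hmem j)).pow_const 2
    _ ≤ Filter.liminf (fun j => C * (eLpNorm g 2 volume + eLpNorm ((u j : V → ℂ) - g) 2 volume) ^ 2)
          Filter.atTop := by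
        refine Filter.liminf_le_liminf (Filter.Eventually.of_forall fun j => ?_)
        refine (h (u j)).trans ?_
        rw [← sq_int_eq]
        gcongr
        have : (u j : V → ℂ) = g + ((u j : V → ℂ) - g) := by ext; simp
        conv_lhs => rw [this]
        exact eLpNorm_add_le hg.aestronglyMeasurable ((hmem j).sub hg).aestronglyMeasurable (by norm_num)
    _ = C * (eLpNorm g 2 volume + 0) ^ 2 := by
        apply Filter.Tendsto.liminf_eq
        have h1 : Filter.Tendsto (fun j => (eLpNorm g 2 volume + eLpNorm ((u j : V → ℂ) - g) 2 volume) ^ 2)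
            Filter.atTop (nhds ((eLpNorm g 2 volume + 0) ^ 2)) :=
          ((ENNReal.continuous_pow 2).tendsto _).comp (tendsto_const_nhds.add hu)
        exact ENNReal.Tendsto.const_mul h1 (Or.inr hC)
    _ = C * ∫⁻ ξ, ‖g ξ‖ₑ ^ 2 := by rw [add_zero, sq_int_eq]

end R13.Dim
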