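import Pool.Agent.R13.Dim.Prod

/-! The maximal estimate in dimension `n+1` implies the maximal estimate in dimension `n`. -/

open MeasureTheory Complex Real
open scoped RealInnerProductSpace ENNReal NNReal ComplexConjugate

set_option linter.unusedSectionVars false

namespace R13.Dim

open R13.Radii

lemma norm_ch1_sub_one (y η : ℝ) : ‖ch1 y η - 1‖ ≤ 2 * π * |y * η| := by
  unfold ch1
  have : (2 * (π:ℂ) * I * ((y * η : ℝ) : ℂ)) = I * ((2 * π * (y * η) : ℝ) : ℂ) := by
    push_cast; ring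
  rw [this]
  refine (Real.norm_exp_I_mul_ofReal_sub_one_le (x := 2 * π * (y * η))).trans (le_of_eq ?_)
  rw [Real.norm_eq_abs, abs_mul, abs_of_pos (by have := Real.pi_pos; positivity)]

lemma key_bound {n : ℕ} (hn : 1 ≤ n) {ε R : ℝ} (hε : 0 < ε) (hR : ε ≤ R) {g : E n → ℂ}
    (hg : MemLp g 2 volume) (w : E (n+1)) (hy0 : 0 ≤ (spl n w).1) (hy : (spl n w).1 ≤ 1 / (16 * ε)) :
    ‖ballInt g R (spl n w).2‖ₑ ≤ ENNReal.ofReal (2 / ε) * ‖ballInt (tens ε g) R w‖ₑ
      + 2 * modc g ε (spl n w).2 := by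
  have hfub := ballInt_tens hR hg hε.le w
  set y := (spl n w).1 with hydef
  set x := (spl n w).2 with hxdef
  by_cases htop : modc g ε x = ∞
  · rw [htop]
    simp
  set m : ℝ := (modc g ε x).toReal with hm
  have hmm : modc g ε x = ENNReal.ofReal m := (ENNReal.ofReal_toReal htop).symm
  have hm0 : 0 ≤ m := ENNReal.toReal_nonneg
  have hfr : 1 ≤ Module.finrank ℝ (E n) := by simpa using hn
  have hnt : Nontrivial (E n) := finrank_pos_nontrivial hfr
  have hcont : Continuous (fun R => ballInt g R x) := continuous_ballInt_R hg x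
  have hc2 : Continuous (fun η : ℝ => ballInt g (Real.sqrt (R ^ 2 - η ^ 2)) x) :=
    hcont.comp (by fun_prop : Continuous fun η : ℝ => Real.sqrt (R ^ 2 - η ^ 2))
  have hR0 : 0 ≤ R := hε.le.trans hR
  -- variation bound
  have hvar : ∀ η ∈ Set.Icc (0:ℝ) ε, ‖ballInt g (Real.sqrt (R ^ 2 - η ^ 2)) x - ballInt g R x‖ ≤ m := by
    intro η hη
    have h1 : Real.sqrt (R ^ 2 - η ^ 2) ≤ R := by
      rw [Real.sqrt_le_left hR0]
      nlinarith [sq_nonneg η]
    have h2 : R - η ≤ Real.sqrt (R ^ 2 - η ^ 2) := by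
      apply Real.le_sqrt_of_sq_le
      have := hη.1
      have : η ≤ R := hη.2.trans hR
      nlinarith
    have h3 : ‖ballInt g R x - ballInt g (Real.sqrt (R ^ 2 - η ^ 2)) x‖ₑ ≤ modc g ε x := by
      refine le_iSup₂_of_le (Real.sqrt (R ^ 2 - η ^ 2)) (Real.sqrt_nonneg _) ?_
      exact le_iSup₂_of_le R ⟨h1, by have := hη.2; linarith⟩ le_rfl
    rw [hmm, ← ofReal_norm, ENNReal.ofReal_le_ofReal_iff hm0] at h3
    rwa [norm_sub_rev]
  set c : ℂ := ∫ η in Set.Icc (0:ℝ) ε, ch1 y η with hc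
  have hfin : volume (Set.Icc (0:ℝ) ε) < ∞ := by simp
  have i1 : IntegrableOn (ch1 y) (Set.Icc (0:ℝ) ε) := (continuous_ch1 y).integrableOn_Icc
  have i0 : IntegrableOn (fun _ : ℝ => (1:ℂ)) (Set.Icc (0:ℝ) ε) := continuous_const.integrableOn_Icc
  have hreal : (volume : Measure ℝ).real (Set.Icc (0:ℝ) ε) = ε := by
    simp [Measure.real, hε.le]
  -- c is about ε
  have hcε : ‖c - (ε : ℂ)‖ ≤ ε / 2 := by
    have h1 : c - (ε : ℂ) = ∫ η in Set.Icc (0:ℝ) ε, (ch1 y η - 1) := by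
      rw [integral_sub i1 i0]
      simp [hε.le, hc, Measure.real]
    rw [h1]
    have h2 : ∀ η ∈ Set.Icc (0:ℝ) ε, ‖ch1 y η - 1‖ ≤ 1 / 2 := by
      intro η hη
      have a1 : |y * η| ≤ 1 / 16 := by
        rw [abs_of_nonneg (mul_nonneg hy0 hη.1)]
        calc y * η ≤ (1 / (16 * ε)) * ε := mul_le_mul hy hη.2 hη.1 (by positivity)
          _ = 1 / 16 := by field_simp
      have a2 := norm_ch1_sub_one y η
      have a4 : 2 * π * |y * η| ≤ 2 * π * (1/16) := by
        have := Real.pi_pos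
        gcongr
      have hpi : π ≤ 4 := Real.pi_le_four
      linarith
    have h3 := norm_setIntegral_le_of_norm_le_const hfin h2
    rw [hreal] at h3
    linarith
  have hcge : ε / 2 ≤ ‖c‖ := by
    have h1 : ‖(ε : ℂ)‖ ≤ ‖c‖ + ‖c - (ε:ℂ)‖ := by
      have : (ε : ℂ) = c - (c - (ε:ℂ)) := by ring
      calc ‖(ε : ℂ)‖ = ‖c - (c - (ε:ℂ))‖ := by rw [← this]
        _ ≤ _ := norm_sub_le _ _
    rw [Complex.norm_real, Real.norm_of_nonneg hε.le] at h1
    linarith
  -- comparison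
  have hcmp : ‖ballInt (tens ε g) R w - c * ballInt g R x‖ ≤ m * ε := by
    have i2 : IntegrableOn (fun η => ch1 y η * ballInt g (Real.sqrt (R ^ 2 - η ^ 2)) x)
        (Set.Icc (0:ℝ) ε) := ((continuous_ch1 y).mul hc2).integrableOn_Icc
    have i3 : IntegrableOn (fun η => ch1 y η * ballInt g R x) (Set.Icc (0:ℝ) ε) :=
      ((continuous_ch1 y).mul continuous_const).integrableOn_Icc
    have e1 : ballInt (tens ε g) R w - c * ballInt g R x
        = ∫ η in Set.Icc (0:ℝ) ε, (ch1 y η * ballInt g (Real.sqrt (R ^ 2 - η ^ 2)) x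
            - ch1 y η * ballInt g R x) := by
      rw [integral_sub i2 i3, integral_mul_const, hfub]
    rw [e1]
    have h2 : ∀ η ∈ Set.Icc (0:ℝ) ε, ‖ch1 y η * ballInt g (Real.sqrt (R ^ 2 - η ^ 2)) x
            - ch1 y η * ballInt g R x‖ ≤ m := by
      intro η hη
      rw [← mul_sub, norm_mul, norm_ch1, one_mul]
      exact hvar η hη
    have h3 := norm_setIntegral_le_of_norm_le_const hfin h2
    rwa [hreal] at h3
  have hfinal : ‖ballInt g R x‖ ≤ (2 / ε) * ‖ballInt (tens ε g) R w‖ + 2 * m := by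
    have h1 : ‖c‖ * ‖ballInt g R x‖ ≤ ‖ballInt (tens ε g) R w‖ + m * ε := by
      rw [← norm_mul]
      have : c * ballInt g R x = ballInt (tens ε g) R w
        - (ballInt (tens ε g) R w - c * ballInt g R x) := by ring
      calc ‖c * ballInt g R x‖ = ‖ballInt (tens ε g) R w
            - (ballInt (tens ε g) R w - c * ballInt g R x)‖ := by rw [← this]
        _ ≤ ‖ballInt (tens ε g) R w‖ + ‖ballInt (tens ε g) R w - c * ballInt g R x‖ := norm_sub_le _ _
        _ ≤ _ := by linarith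
    have h2 : ε / 2 * ‖ballInt g R x‖ ≤ ‖ballInt (tens ε g) R w‖ + m * ε :=
      (mul_le_mul_of_nonneg_right hcge (norm_nonneg _)).trans h1
    have h3 : ‖ballInt g R x‖ = (2 / ε) * (ε / 2 * ‖ballInt g R x‖) := by field_simp
    rw [h3]
    calc (2 / ε) * (ε / 2 * ‖ballInt g R x‖) ≤ (2 / ε) * (‖ballInt (tens ε g) R w‖ + m * ε) :=
          mul_le_mul_of_nonneg_left h2 (by positivity)
      _ = _ := by field_simp
  have e5 : ENNReal.ofReal 2 = 2 := by simp
  calc ‖ballInt g R x‖ₑ = ENNReal.ofReal ‖ballInt g R x‖ := (ofReal_norm _).symm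
    _ ≤ ENNReal.ofReal ((2 / ε) * ‖ballInt (tens ε g) R w‖ + 2 * m) := ENNReal.ofReal_le_ofReal hfinal
    _ = ENNReal.ofReal (2 / ε) * ‖ballInt (tens ε g) R w‖ₑ + 2 * modc g ε x := by
        rw [ENNReal.ofReal_add (by positivity) (by positivity), ENNReal.ofReal_mul (by positivity),
          ENNReal.ofReal_mul (by norm_num), ofReal_norm, hmm, e5]

lemma max_bound {n : ℕ} (hn : 1 ≤ n) {ε : ℝ} (hε : 0 < ε) {g : E n → ℂ}
    (hg : MemLp g 2 volume) (w : E (n+1)) (hy0 : 0 ≤ (spl n w).1) (hy : (spl n w).1 ≤ 1 / (16 * ε)) :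
    maxBall g (spl n w).2 ^ 2 ≤ ENNReal.ofReal (16 / ε ^ 2) * maxBall (tens ε g) w ^ 2
      + 16 * modc g ε (spl n w).2 ^ 2 := by
  have hfr : 1 ≤ Module.finrank ℝ (E n) := by simpa using hn
  have hnt : Nontrivial (E n) := finrank_pos_nontrivial hfr
  have h1 : maxBall g (spl n w).2 ≤ ENNReal.ofReal (2 / ε) * maxBall (tens ε g) w
      + 2 * modc g ε (spl n w).2 := by
    refine iSup₂_le fun R hR => ?_
    rcases le_or_gt ε R with h | h
    · refine (key_bound hn hε h hg w hy0 hy).trans ?_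
      gcongr
      exact le_iSup₂_of_le R hR le_rfl
    · have h2 : ‖ballInt g R (spl n w).2 - ballInt g 0 (spl n w).2‖ₑ ≤ modc g ε (spl n w).2 := by
        refine le_iSup₂_of_le 0 (Set.mem_Ici.2 le_rfl) ?_
        exact le_iSup₂_of_le R ⟨(le_of_lt hR : (0:ℝ) ≤ R), by linarith⟩ le_rfl
      rw [ballInt_zero, sub_zero] at h2
      calc ‖ballInt g R (spl n w).2‖ₑ ≤ 1 * modc g ε (spl n w).2 := by rw [one_mul]; exact h2
        _ ≤ 2 * modc g ε (spl n w).2 := by gcongr; norm_num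
        _ ≤ _ := le_add_self
  calc maxBall g (spl n w).2 ^ 2 ≤ (ENNReal.ofReal (2 / ε) * maxBall (tens ε g) w
      + 2 * modc g ε (spl n w).2) ^ 2 := by gcongr
    _ ≤ 4 * (ENNReal.ofReal (2 / ε) * maxBall (tens ε g) w) ^ 2 + 4 * (2 * modc g ε (spl n w).2) ^ 2 :=
        add_sq_le_four _ _
    _ = _ := by
        rw [mul_pow, mul_pow, ← mul_assoc, ← mul_assoc]
        congr 1
        · congr 1
          rw [← ENNReal.ofReal_pow (by positivity)]
          have : ENNReal.ofReal 4 = 4 := by simp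
          rw [← this, ← ENNReal.ofReal_mul (by norm_num)]
          congr 1
          rw [div_pow]; ring
        · norm_num

lemma measurable_modc {n : ℕ} {g : E n → ℂ} (hg : MemLp g 2 volume) (L : ℝ) :
    Measurable (modc g L) := by
  apply LowerSemicontinuous.measurable
  unfold modc
  exact lowerSemicontinuous_biSup fun R _ => lowerSemicontinuous_biSup fun R' _ =>
    ((continuous_ballInt_x hg R').sub (continuous_ballInt_x hg R)).enorm.lowerSemicontinuous

/-- Local form of the descent. -/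
lemma descent_ball {n : ℕ} (hn : 1 ≤ n) {C : ℝ≥0∞} {g : E n → ℂ} (hg : MemLp g 2 volume)
    (h : ∀ ε : ℝ, 0 < ε → ∫⁻ w, maxBall (tens ε g) w ^ 2 ≤ C * ∫⁻ w, ‖tens ε g w‖ₑ ^ 2)
    {ρ : ℝ} (hρ : 0 < ρ) :
    ∫⁻ x in Metric.closedBall (0 : E n) ρ, maxBall g x ^ 2
      ≤ (256 * C + 16 * ENNReal.ofReal (216 * rexp π * shellConst (E n))) * ∫⁻ ξ, ‖g ξ‖ₑ ^ 2 := by
  have hfr : 1 ≤ Module.finrank ℝ (E n) := by simpa using hn
  set ε : ℝ := 1 / ρ with hεd
  have hε : 0 < ε := by positivity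
  have hερ : ε * ρ = 1 := by rw [hεd]; field_simp
  set a : ℝ≥0∞ := ENNReal.ofReal (1 / (16 * ε)) with ha
  have ha0 : a ≠ 0 := (ENNReal.ofReal_pos.2 (by positivity)).ne'
  have hat : a ≠ ∞ := ENNReal.ofReal_ne_top
  set B : Set (E n) := Metric.closedBall (0 : E n) ρ with hB
  have hBm : MeasurableSet B := Metric.isClosed_closedBall.measurableSet
  set J : Set ℝ := Set.Icc (0:ℝ) (1 / (16 * ε)) with hJ
  have hJm : MeasurableSet J := measurableSet_Icc
  have hJv : volume J = a := by rw [hJ, Real.volume_Icc, sub_zero]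
  have hprod : ∀ F : E n → ℝ≥0∞, Measurable F →
      ∫⁻ w : E (n+1), J.indicator (fun _ => (1:ℝ≥0∞)) (spl n w).1 * B.indicator F (spl n w).2
        = a * ∫⁻ x in B, F x := by
    intro F hF
    rw [(spl_mp n).lintegral_comp_emb (spl n).measurableEmbedding
      (fun z : ℝ × E n => J.indicator (fun _ => (1:ℝ≥0∞)) z.1 * B.indicator F z.2)]
    have hv : (volume : Measure (ℝ × E n)) = (volume : Measure ℝ).prod (volume : Measure (E n)) := rfl
    rw [hv, lintegral_prod_mul (f := J.indicator (fun _ => (1:ℝ≥0∞))) (g := B.indicator F)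
      (measurable_const.indicator hJm).aemeasurable (hF.indicator hBm).aemeasurable,
      lintegral_indicator hBm, lintegral_indicator hJm]
    simp [hJv]
  have hmg : Measurable (fun x => maxBall g x ^ 2) := (measurable_maxBall hg).pow_const 2
  have hmm : Measurable (fun x => modc g ε x ^ 2) := (measurable_modc hg ε).pow_const 2
  have hmt : Measurable (fun w => ENNReal.ofReal (16 / ε ^ 2) * maxBall (tens ε g) w ^ 2) :=
    ((measurable_maxBall (tens_memLp hε.le hg)).pow_const 2).const_mul _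
  have hpt : ∀ w : E (n+1), J.indicator (fun _ => (1:ℝ≥0∞)) (spl n w).1
        * B.indicator (fun x => maxBall g x ^ 2) (spl n w).2
      ≤ ENNReal.ofReal (16 / ε ^ 2) * maxBall (tens ε g) w ^ 2
        + 16 * (J.indicator (fun _ => (1:ℝ≥0∞)) (spl n w).1
          * B.indicator (fun x => modc g ε x ^ 2) (spl n w).2) := by
    intro w
    by_cases h1 : (spl n w).1 ∈ J
    · by_cases h2 : (spl n w).2 ∈ B
      · rw [Set.indicator_of_mem h1, Set.indicator_of_mem h2, Set.indicator_of_mem h2, one_mul, one_mul]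
        exact max_bound hn hε hg w h1.1 h1.2
      · rw [Set.indicator_of_notMem h2]; simp
    · rw [Set.indicator_of_notMem h1]; simp
  have hmain : a * ∫⁻ x in B, maxBall g x ^ 2
      ≤ a * ((256 * C + 16 * ENNReal.ofReal (216 * rexp π * shellConst (E n))) * ∫⁻ ξ, ‖g ξ‖ₑ ^ 2) := by
    calc a * ∫⁻ x in B, maxBall g x ^ 2
        = ∫⁻ w : E (n+1), J.indicator (fun _ => (1:ℝ≥0∞)) (spl n w).1
            * B.indicator (fun x => maxBall g x ^ 2) (spl n w).2 := (hprod _ hmg).symm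
      _ ≤ ∫⁻ w : E (n+1), (ENNReal.ofReal (16 / ε ^ 2) * maxBall (tens ε g) w ^ 2
            + 16 * (J.indicator (fun _ => (1:ℝ≥0∞)) (spl n w).1
              * B.indicator (fun x => modc g ε x ^ 2) (spl n w).2)) := lintegral_mono hpt
      _ = ENNReal.ofReal (16 / ε ^ 2) * (∫⁻ w, maxBall (tens ε g) w ^ 2)
            + 16 * (a * ∫⁻ x in B, modc g ε x ^ 2) := by
          rw [lintegral_add_left hmt, lintegral_const_mul' _ _ ENNReal.ofReal_ne_top,
            lintegral_const_mul' _ _ (by norm_num), hprod _ hmm]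
      _ ≤ ENNReal.ofReal (16 / ε ^ 2) * (C * (ENNReal.ofReal ε * ∫⁻ ξ, ‖g ξ‖ₑ ^ 2))
            + 16 * (a * (ENNReal.ofReal (216 * rexp π * shellConst (E n)) * ENNReal.ofReal (ε * ρ)
              * ∫⁻ ξ, ‖g ξ‖ₑ ^ 2)) := by
          gcongr
          · rw [← tens_sq hε.le hg.aestronglyMeasurable]
            exact h ε hε
          · exact modc_ball hfr hg hε hρ
      _ = _ := by
          have e1 : ENNReal.ofReal (16 / ε ^ 2) * ENNReal.ofReal ε = 256 * a := by
            have : ENNReal.ofReal 256 = 256 := by simp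
            rw [ha, ← this, ← ENNReal.ofReal_mul (by positivity), ← ENNReal.ofReal_mul (by norm_num)]
            congr 1
            field_simp
            norm_num
          rw [hερ, ENNReal.ofReal_one, mul_one]
          calc _ = (ENNReal.ofReal (16 / ε ^ 2) * ENNReal.ofReal ε) * (C * ∫⁻ ξ, ‖g ξ‖ₑ ^ 2)
                + 16 * (a * (ENNReal.ofReal (216 * rexp π * shellConst (E n)) * ∫⁻ ξ, ‖g ξ‖ₑ ^ 2)) := by ring
            _ = _ := by rw [e1]; ring
  exact (ENNReal.mul_le_mul_iff_right ha0 hat).1 hmain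

/-- Local estimates on all balls give the global one. -/
lemma global_of_balls {n : ℕ} {g : E n → ℂ} {D : ℝ≥0∞}
    (h : ∀ ρ : ℝ, 0 < ρ → ∫⁻ x in Metric.closedBall (0 : E n) ρ, maxBall g x ^ 2 ≤ D) :
    ∫⁻ x, maxBall g x ^ 2 ≤ D := by
  have hU : (⋃ N : ℕ, Metric.closedBall (0 : E n) ((N:ℝ) + 1)) = Set.univ := by
    rw [Set.eq_univ_iff_forall]
    intro x
    obtain ⟨N, hN⟩ := exists_nat_gt ‖x‖
    refine Set.mem_iUnion.2 ⟨N, ?_⟩
    rw [mem_closedBall_zero_iff]
    linarith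
  have hdir : Directed (· ⊆ ·) (fun N : ℕ => Metric.closedBall (0 : E n) ((N:ℝ) + 1)) := by
    apply Monotone.directed_le
    intro N M hNM
    apply Metric.closedBall_subset_closedBall
    have : (N:ℝ) ≤ M := by exact_mod_cast hNM
    linarith
  calc ∫⁻ x, maxBall g x ^ 2 = ∫⁻ x in Set.univ, maxBall g x ^ 2 := by rw [setLIntegral_univ]
    _ = ⨆ N : ℕ, ∫⁻ x in Metric.closedBall (0 : E n) ((N:ℝ) + 1), maxBall g x ^ 2 := by
        rw [← hU, setLIntegral_iUnion_of_directed _ hdir]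
    _ ≤ _ := iSup_le fun N => h _ (by positivity)

/-- **Descent in dimension** on the `L²` level. -/
theorem descent {n : ℕ} (hn : 1 ≤ n) {C : ℝ≥0∞}
    (h : ∀ G : E (n+1) → ℂ, MemLp G 2 volume → ∫⁻ w, maxBall G w ^ 2 ≤ C * ∫⁻ w, ‖G w‖ₑ ^ 2)
    {g : E n → ℂ} (hg : MemLp g 2 volume) :
    ∫⁻ x, maxBall g x ^ 2
      ≤ (256 * C + 16 * ENNReal.ofReal (216 * rexp π * shellConst (E n))) * ∫⁻ ξ, ‖g ξ‖ₑ ^ 2 :=
  global_of_balls fun _ hρ => descent_ball hn hg
    (fun ε hε => h _ (tens_memLp hε.le hg)) hρ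

end R13.Dim
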