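import Pool.Agent.R13.Dim.L2

/-! Splitting off one coordinate. -/

open MeasureTheory Complex Real
open scoped RealInnerProductSpace ENNReal NNReal ComplexConjugate

set_option linter.unusedSectionVars false

namespace R13.Dim

open R13.Radii

/-- `ℝ^n`. -/
abbrev E (n : ℕ) := EuclideanSpace ℝ (Fin n)

/-- `ℝ^{n+1} ≃ ℝ × ℝ^n`. -/
noncomputable def spl (n : ℕ) : E (n+1) ≃ᵐ ℝ × E n :=
  (MeasurableEquiv.toLp 2 (Fin (n+1) → ℝ)).symm.trans
    ((MeasurableEquiv.piFinSuccAbove (fun _ : Fin (n+1) => ℝ) 0).trans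
      (MeasurableEquiv.prodCongr (MeasurableEquiv.refl ℝ) (MeasurableEquiv.toLp 2 (Fin n → ℝ))))

lemma spl_fst {n : ℕ} (w : E (n+1)) : (spl n w).1 = w 0 := rfl

lemma spl_snd {n : ℕ} (w : E (n+1)) (i : Fin n) : (spl n w).2 i = w i.succ := rfl

lemma spl_mp (n : ℕ) : MeasurePreserving (spl n) volume volume := by
  have h1 : MeasurePreserving (MeasurableEquiv.toLp 2 (Fin (n+1) → ℝ)).symm volume volume :=
    PiLp.volume_preserving_ofLp (Fin (n+1))
  have h2 : MeasurePreserving (MeasurableEquiv.piFinSuccAbove (fun _ : Fin (n+1) => ℝ) 0) volume volume :=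
    volume_preserving_piFinSuccAbove (fun _ => ℝ) 0
  have h3 : MeasurePreserving (MeasurableEquiv.prodCongr (MeasurableEquiv.refl ℝ)
      (MeasurableEquiv.toLp 2 (Fin n → ℝ))) (volume : Measure (ℝ × (Fin n → ℝ))) volume :=
    (MeasurePreserving.id (volume : Measure ℝ)).prod (PiLp.volume_preserving_toLp (Fin n))
  exact (h3.comp h2).comp h1

lemma norm_spl {n : ℕ} (w : E (n+1)) : ‖w‖ ^ 2 = (spl n w).1 ^ 2 + ‖(spl n w).2‖ ^ 2 := by
  rw [EuclideanSpace.norm_sq_eq, EuclideanSpace.norm_sq_eq, Fin.sum_univ_succ]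
  simp [spl_fst, spl_snd]

lemma inner_spl {n : ℕ} (w z : E (n+1)) :
    inner ℝ w z = (spl n w).1 * (spl n z).1 + inner ℝ (spl n w).2 (spl n z).2 := by
  rw [PiLp.inner_apply, PiLp.inner_apply, Fin.sum_univ_succ]
  simp [spl_fst, spl_snd, mul_comm]

/-- The one-dimensional character. -/
noncomputable def ch1 (y η : ℝ) : ℂ := cexp (2 * π * I * ((y * η : ℝ) : ℂ))

lemma chr_spl {n : ℕ} (w z : E (n+1)) :
    chr w z = ch1 (spl n w).1 (spl n z).1 * chr (spl n w).2 (spl n z).2 := by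
  unfold chr ch1
  rw [← Complex.exp_add, inner_spl]
  congr 1
  push_cast
  ring

lemma norm_ch1 (y η : ℝ) : ‖ch1 y η‖ = 1 := by
  unfold ch1
  have : (2 * (π:ℂ) * I * ((y * η : ℝ) : ℂ)) = ((2 * π * (y * η) : ℝ) : ℂ) * I := by
    push_cast; ring
  rw [this, Complex.norm_exp_ofReal_mul_I]

lemma continuous_ch1 (y : ℝ) : Continuous (ch1 y) := by
  unfold ch1; fun_prop

/-- Tensor product of `1_{[0,ε]}` and `g`. -/
noncomputable def tens {n : ℕ} (ε : ℝ) (g : E n → ℂ) (w : E (n+1)) : ℂ :=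
  (Set.Icc (0:ℝ) ε).indicator (fun _ => (1:ℂ)) (spl n w).1 * g (spl n w).2

lemma tens_sq {n : ℕ} {ε : ℝ} (hε : 0 ≤ ε) {g : E n → ℂ} (hg : AEStronglyMeasurable g volume) :
    ∫⁻ w, ‖tens ε g w‖ₑ ^ 2 = ENNReal.ofReal ε * ∫⁻ ξ, ‖g ξ‖ₑ ^ 2 := by
  have e1 : ∀ w : E (n+1), ‖tens ε g w‖ₑ ^ 2
      = (fun z : ℝ × E n => (Set.Icc (0:ℝ) ε).indicator (fun _ => (1:ℝ≥0∞)) z.1 * ‖g z.2‖ₑ ^ 2)
        (spl n w) := by
    intro w
    unfold tens
    by_cases h : (spl n w).1 ∈ Set.Icc (0:ℝ) ε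
    · simp [h]
    · simp [h]
  rw [lintegral_congr e1, (spl_mp n).lintegral_comp_emb (spl n).measurableEmbedding
    (fun z : ℝ × E n => (Set.Icc (0:ℝ) ε).indicator (fun _ => (1:ℝ≥0∞)) z.1 * ‖g z.2‖ₑ ^ 2)]
  have hv : (volume : Measure (ℝ × E n)) = (volume : Measure ℝ).prod (volume : Measure (E n)) := rfl
  rw [hv, lintegral_prod_mul (f := (Set.Icc (0:ℝ) ε).indicator (fun _ => (1:ℝ≥0∞)))
    (g := fun ξ => ‖g ξ‖ₑ ^ 2) (measurable_const.indicator measurableSet_Icc).aemeasurable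
    (hg.enorm.pow_const 2)]
  congr 1
  rw [lintegral_indicator measurableSet_Icc]
  simp

lemma tens_memLp {n : ℕ} {ε : ℝ} (hε : 0 ≤ ε) {g : E n → ℂ} (hg : MemLp g 2 volume) :
    MemLp (tens ε g) 2 (volume : Measure (E (n+1))) := by
  have hm : AEStronglyMeasurable (tens ε g) (volume : Measure (E (n+1))) := by
    have h1 : AEStronglyMeasurable (fun z : ℝ × E n => (Set.Icc (0:ℝ) ε).indicator (fun _ => (1:ℂ)) z.1
        * g z.2) (volume : Measure (ℝ × E n)) := by
      have a1 : AEStronglyMeasurable (fun z : ℝ × E n => (Set.Icc (0:ℝ) ε).indicator (fun _ => (1:ℂ)) z.1)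
          (volume : Measure (ℝ × E n)) :=
        ((measurable_const.indicator measurableSet_Icc).comp measurable_fst).aestronglyMeasurable
      have a2 : AEStronglyMeasurable (fun z : ℝ × E n => g z.2) (volume : Measure (ℝ × E n)) :=
        hg.aestronglyMeasurable.comp_snd
      exact a1.mul a2
    exact h1.comp_measurePreserving (spl_mp n)
  refine ⟨hm, ?_⟩
  have h2 : eLpNorm (tens ε g) 2 volume ^ 2 ≠ ∞ := by
    rw [sq_int_eq, tens_sq hε hg.aestronglyMeasurable, ← sq_int_eq]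
    exact ENNReal.mul_ne_top ENNReal.ofReal_ne_top (ENNReal.pow_ne_top hg.eLpNorm_ne_top)
  by_contra hcon
  rw [not_lt, top_le_iff] at hcon
  rw [hcon] at h2
  simp at h2

/-- Fubini for the ball sums of a tensor product. -/
lemma ballInt_tens {n : ℕ} {ε R : ℝ} (hR : ε ≤ R) {g : E n → ℂ} (hg : MemLp g 2 volume)
    (hε : 0 ≤ ε) (w : E (n+1)) :
    ballInt (tens ε g) R w
      = ∫ η in Set.Icc (0:ℝ) ε, ch1 (spl n w).1 η * ballInt g (Real.sqrt (R ^ 2 - η ^ 2)) (spl n w).2 := by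
  have hR0 : 0 ≤ R := hε.trans hR
  rw [ballInt_eq_ext]
  unfold R13.Radii.ext
  set y := (spl n w).1 with hy
  set x := (spl n w).2 with hx
  let Ψ : ℝ × E n → ℂ := fun z => (Set.Icc (0:ℝ) ε).indicator (fun _ => (1:ℂ)) z.1 * ch1 y z.1 *
    (chr x z.2 * (Metric.closedBall (0 : E n) (Real.sqrt (R ^ 2 - z.1 ^ 2))).indicator g z.2)
  have e1 : ∀ v : E (n+1), chr w v * (Metric.closedBall (0 : E (n+1)) R).indicator (tens ε g) v
      = Ψ (spl n v) := by
    intro v
    simp only [Ψ]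
    by_cases h1 : (spl n v).1 ∈ Set.Icc (0:ℝ) ε
    · have hsq : 0 ≤ R ^ 2 - (spl n v).1 ^ 2 := by
        have := h1.1
        have := h1.2
        nlinarith
      have hiff : v ∈ Metric.closedBall (0 : E (n+1)) R
          ↔ (spl n v).2 ∈ Metric.closedBall (0 : E n) (Real.sqrt (R ^ 2 - (spl n v).1 ^ 2)) := by
        simp only [mem_closedBall_zero_iff]
        rw [Real.le_sqrt (norm_nonneg _) hsq, ← abs_of_nonneg hR0, ← abs_of_nonneg (norm_nonneg v),
          ← sq_le_sq, norm_spl, abs_of_nonneg hR0]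
        constructor <;> intro h <;> linarith
      by_cases h2 : v ∈ Metric.closedBall (0 : E (n+1)) R
      · rw [Set.indicator_of_mem h2, Set.indicator_of_mem (hiff.1 h2), Set.indicator_of_mem h1, chr_spl]
        unfold tens
        rw [Set.indicator_of_mem h1]
        ring
      · rw [Set.indicator_of_notMem h2, Set.indicator_of_notMem (fun h => h2 (hiff.2 h))]
        simp
    · have : tens ε g v = 0 := by
        unfold tens
        rw [Set.indicator_of_notMem h1, zero_mul]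
      have h3 : (Metric.closedBall (0 : E (n+1)) R).indicator (tens ε g) v = 0 := by
        by_cases h2 : v ∈ Metric.closedBall (0 : E (n+1)) R
        · rw [Set.indicator_of_mem h2, this]
        · rw [Set.indicator_of_notMem h2]
      rw [h3, Set.indicator_of_notMem h1]
      simp
  have hint : Integrable Ψ (volume : Measure (ℝ × E n)) := by
    have h1 := integrable_chr_mul (memLp_indicator_integrable (tens_memLp hε hg)
      (A := Metric.closedBall (0 : E (n+1)) R) Metric.isClosed_closedBall.measurableSet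
      measure_closedBall_lt_top.ne) w
    simp_rw [e1] at h1
    exact ((spl_mp n).integrable_comp_emb (spl n).measurableEmbedding).1 h1
  simp_rw [e1]
  rw [(spl_mp n).integral_comp (spl n).measurableEmbedding Ψ]
  have hv : (volume : Measure (ℝ × E n)) = (volume : Measure ℝ).prod (volume : Measure (E n)) := rfl
  rw [hv] at hint ⊢
  rw [integral_prod _ hint, ← integral_indicator measurableSet_Icc]
  congr 1
  funext η
  simp only [Ψ]
  rw [integral_const_mul]
  by_cases h : η ∈ Set.Icc (0:ℝ) ε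
  · rw [Set.indicator_of_mem h, Set.indicator_of_mem h, one_mul, ballInt_eq_ext]
    rfl
  · rw [Set.indicator_of_notMem h, Set.indicator_of_notMem h]
    simp

end R13.Dim
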